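import Pool.Agent.Helper30.HM.HechPosOf
import Pool.Agent.Helper33.HM.CondCCC

/-!
# Project HM, E2: the Hechler condition is compatible with every nonzero element
-/

set_option autoImplicit false

namespace Pool.Agent.Helper33.HM

theorem hech_pos (β : Ordinal.{0}) (s : List ℕ) (g : ℕ → ℕ → RO (Cond Ordinal.{0}))
    (hg : IsFn (SubI β) g) {b : RO (Cond Ordinal.{0})} (hb : b ∈ SubI β) (hb0 : b ≠ ⊥) :
    b ⊓ hcond (hech β) s g ≠ ⊥ :=
  h30_hech_pos_of Cond.cond_ccc β s g hg hb hb0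

end Pool.Agent.Helper33.HM
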