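import Pool.Agent.Helper84.HM.Res
import Pool.Agent.Helper55.HM.Stems

/-!
# Project HM, E2: the Hechler condition is compatible with every nonzero element
-/

set_option autoImplicit false

namespace Pool.Agent.Helper33.HM

universe u

section

variable {I : Type u} [LinearOrder I] [WellFoundedLT I]

/-- Gluing an element of a member of `SubI i` below the restriction of `p`. -/
theorem h30_glue_mem {i : I} {U : RO (Cond I)} (hU : U ∈ SubI i) {r p : Cond I} (hr : r.lt i)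
    (hrp : r ≤ p.res i) (hrU : r ∈ U) : ∃ q : Cond I, q ≤ p ∧ q ≤ r ∧ q ∈ U := by
  refine ⟨Cond.glue i r p hr, Cond.glue_le_right i r p hr hrp, Cond.glue_le_left i r p hr, ?_⟩
  rw [hU, Cond.res_glue]
  exact hrU

/-- Elements of `SubI i` are generated by countably many conditions of length `i`. -/
theorem h30_exists_gen (hccc : ∀ A : Set (Cond I),
    (∀ p ∈ A, ∀ q ∈ A, p ≠ q → ¬ ∃ r : Cond I, r ≤ p ∧ r ≤ q) → A.Countable)
    {i : I} {U : RO (Cond I)} (hU : U ∈ SubI i) :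
    ∃ A : Set (Cond I), A.Countable ∧ (∀ a ∈ A, a.lt i ∧ a ∈ U) ∧
      ∀ p ∈ U, ∃ r : Cond I, r.lt i ∧ r ≤ p.res i ∧ ∃ a ∈ A, r ≤ a := by
  let 𝒞 : Set (Set (Cond I)) := {A | (∀ a ∈ A, a.lt i ∧ a ∈ U) ∧
    ∀ p ∈ A, ∀ q ∈ A, p ≠ q → ¬ ∃ r : Cond I, r ≤ p ∧ r ≤ q}
  obtain ⟨A, hA⟩ : ∃ A, Maximal (· ∈ 𝒞) A := by
    refine zorn_subset 𝒞 ?_
    intro c hc1 hc2
    refine ⟨⋃₀ c, ⟨?_, ?_⟩, fun s hs => Set.subset_sUnion_of_mem hs⟩
    · rintro a ⟨s, hs, ha⟩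
      exact (hc1 hs).1 a ha
    · rintro p ⟨s, hs, hp⟩ q ⟨t, ht, hq⟩ hpq
      rcases hc2.total hs ht with h | h
      · exact (hc1 ht).2 p (h hp) q hq hpq
      · exact (hc1 hs).2 p hp q (h hq) hpq
  have hAC : A ∈ 𝒞 := hA.prop
  refine ⟨A, hccc A hAC.2, hAC.1, ?_⟩
  intro p hp
  have hp' : p.res i ∈ U := (hU p).1 hp
  have key : ∃ a ∈ A, ∃ r : Cond I, r ≤ p.res i ∧ r ≤ a := by
    by_contra hcon
    push Not at hcon
    have hins : insert (p.res i) A ∈ 𝒞 := by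
      refine ⟨?_, ?_⟩
      · rintro a (rfl | ha)
        · exact ⟨Cond.res_lt p i, hp'⟩
        · exact hAC.1 a ha
      · rintro a (rfl | ha) q (rfl | hq) hpq
        · exact absurd rfl hpq
        · rintro ⟨r, h1, h2⟩
          exact hcon q hq r h1 h2
        · rintro ⟨r, h1, h2⟩
          exact hcon a ha r h2 h1
        · exact hAC.2 a ha q hq hpq
    have hmem : p.res i ∈ A := hA.le_of_ge hins (Set.subset_insert _ A) (Set.mem_insert _ A)
    exact hcon _ hmem _ le_rfl le_rfl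
  obtain ⟨a, ha, r, hr1, hr2⟩ := key
  refine ⟨r.res i, Cond.res_lt r i, ?_, a, ha, ?_⟩
  · have := Cond.res_mono hr1 i
    rwa [Cond.res_of_lt (Cond.res_lt p i)] at this
  · have := Cond.res_mono hr2 i
    rwa [Cond.res_of_lt (hAC.1 a ha).1] at this

/-- The entry at `i` of a condition below another one. -/
theorem h30_le_ent {p q q' : Cond I} (h : p ≤ q) {i : I} {t : List ℕ} {m' : ℕ}
    {g : ℕ → ℕ → ℕ → Cond I} {w : ℕ → ℕ → ℕ → ℕ} (he : Cond.Ent q i q' t m' g w) :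
    ∃ p' s m f v, Cond.Ent p i p' s m f v ∧ t <+: s := by
  obtain ⟨p', s, m, f, v, h1, h2, -⟩ := Cond.le_iff.1 h i q' t m' g w he
  exact ⟨p', s, m, f, v, h1, h2⟩

end

/-- E2 from the countable chain condition. -/
theorem h30_hech_pos_of (hccc : ∀ A : Set (Cond Ordinal.{0}),
    (∀ p ∈ A, ∀ q ∈ A, p ≠ q → ¬ ∃ r : Cond Ordinal.{0}, r ≤ p ∧ r ≤ q) → A.Countable)
    (β : Ordinal.{0}) (s : List ℕ) (g : ℕ → ℕ → RO (Cond Ordinal.{0}))
    (hg : IsFn (SubI β) g) {b : RO (Cond Ordinal.{0})} (hb : b ∈ SubI β) (hb0 : b ≠ ⊥) :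
    b ⊓ hcond (hech β) s g ≠ ⊥ := by
  obtain ⟨p0, hp0⟩ := RO.ne_bot_iff.1 hb0
  have hpb : p0.res β ∈ b := (hb p0).1 hp0
  have hplt : (p0.res β).lt β := Cond.res_lt p0 β
  generalize p0.res β = p at hpb hplt
  -- monotonicity of `g`
  have hmono : ∀ n k l, k ≤ l → g n k ≤ g n l := fun n k l hkl =>
    monotone_nat_of_le_succ (f := g n) (hg.mono n) hkl
  -- the generators
  choose A hA1 hA2 hA3 using fun n k => h30_exists_gen hccc (hg.mem n k)
  have hex : ∀ n (r : Cond Ordinal.{0}), ∃ r' : Cond Ordinal.{0}, r' ≤ r ∧ ∃ k, r' ∈ g n k := by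
    intro n r
    have h : r ∈ ⨆ k, g n k := by
      rw [hg.tot n]
      exact RO.mem_top r
    obtain ⟨r', h1, k, h2⟩ := RO.mem_iSup.1 h r le_rfl
    exact ⟨r', h1, k, h2⟩
  have hP : ∀ n, ∃ e : ℕ → Cond Ordinal.{0} × ℕ,
      (⋃ w, (fun a => (a, w)) '' A n w) = Set.range e := by
    intro n
    refine Set.Countable.exists_eq_range ?_ ?_
    · exact Set.countable_iUnion fun w => (hA1 n w).image _
    · obtain ⟨r', -, k, hk⟩ := hex n p
      obtain ⟨r, -, -, a, ha, -⟩ := hA3 n k r' hk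
      exact ⟨(a, k), Set.mem_iUnion.2 ⟨k, a, ha, rfl⟩⟩
  choose e he using hP
  have hmem : ∀ n k, (e n k).1 ∈ A n (e n k).2 := by
    intro n k
    have h : e n k ∈ ⋃ w, (fun a => (a, w)) '' A n w := by
      rw [he n]
      exact ⟨k, rfl⟩
    obtain ⟨w, a, ha, h2⟩ := Set.mem_iUnion.1 h
    rw [← h2]
    exact ha
  have hsurj : ∀ n w, ∀ a ∈ A n w, ∃ k, e n k = (a, w) := by
    intro n w a ha
    have h : (a, w) ∈ ⋃ w, (fun a => (a, w)) '' A n w := Set.mem_iUnion.2 ⟨w, a, ha, rfl⟩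
    rw [he n] at h
    exact h
  -- the condition
  let f : ℕ → ℕ → ℕ → Cond Ordinal.{0} := fun _ n k => (e n k).1
  let v : ℕ → ℕ → ℕ → ℕ := fun _ n k => (e n k).2
  have hf : ∀ l n k, (f l n k).lt β := fun _ n k => (hA2 n _ _ (hmem n k)).1
  let q : Cond Ordinal.{0} := Cond.cons p β hplt s 1 f hf v
  have hqent : Cond.Ent q β p s 1 f v := Cond.ent_cons.2 (Or.inl ⟨rfl, rfl, rfl, rfl, rfl, rfl⟩)
  have hqp : q ≤ p := (Cond.le_cons_iff.1 (le_refl q)).1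
  refine RO.ne_bot_iff.2 ⟨q, RO.mem_inf.2 ⟨RO.mem_lower hqp hpb, RO.mem_inf.2 ⟨?_, ?_⟩⟩⟩
  · -- the stem
    refine RO.mem_iInf.2 fun i => RO.mem_iInf.2 fun hi => RO.mem_inf.2 ⟨?_, ?_⟩
    · intro r hr
      exact ⟨r, le_rfl, q, ⟨p, s, 1, f, v, hqent, hi, le_rfl⟩, hr⟩
    · refine RO.mem_iInf.2 fun j => RO.mem_iInf.2 fun hj => RO.mem_compl.2 ?_
      intro r hr hrj
      obtain ⟨r', hr', a, ⟨pa, sa, ma, fa, va, hea, hia, hle⟩, hra⟩ := hrj r le_rfl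
      obtain ⟨p1, s1, m1, f1, v1, h1, h1'⟩ := h30_le_ent hra hea
      obtain ⟨p2, s2, m2, f2, v2, h2, h2'⟩ := h30_le_ent (hr'.trans hr) hqent
      obtain ⟨-, rfl, -⟩ := Cond.ent_unique h1 h2
      have e1 : sa[i] = s1[i]'(lt_of_lt_of_le hia h1'.length_le) := h1'.getElem hia
      have e2 : s[i] = s1[i]'(lt_of_lt_of_le hi h2'.length_le) := h2'.getElem hi
      omega
  · -- domination
    refine RO.mem_iInf.2 fun n => RO.mem_iInf.2 fun hn => RO.mem_iInf.2 fun k =>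
      RO.mem_himp.2 ?_
    intro r hr hrk
    refine RO.mem_reg fun r1 hr1 => ?_
    obtain ⟨r2, hr2, a, ⟨pa, sa, ma, fa, va, hea, hia, hle⟩, hra⟩ := hrk r1 hr1
    obtain ⟨p1, s1, m1, f1, v1, h1, h1'⟩ := h30_le_ent hra hea
    obtain ⟨-, p2, s2, m2, f2, v2, h2, -, -, h2'⟩ :=
      Cond.le_cons_iff.1 (show r2 ≤ Cond.cons p β hplt s 1 f hf v from (hr2.trans hr1).trans hr)
    obtain ⟨rfl, rfl, -⟩ := Cond.ent_unique h1 h2
    have e1 : sa[n] = s1[n]'(lt_of_lt_of_le hia h1'.length_le) := h1'.getElem hia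
    have hn1 : n < s1.length := lt_of_lt_of_le hia h1'.length_le
    have hfrc := h2' n hn1 hn 0 Nat.one_pos
    obtain ⟨hp1, hp1lt, -, -⟩ := Cond.ent_facts h1
    obtain ⟨r3, hr3lt, hr3, h3⟩ := hfrc p1 hp1lt le_rfl
    rcases h3 with ⟨k', hk', h3⟩ | h3
    · have h4 : r3 ∈ g n k := by
        have h5 : r3 ∈ g n (e n k').2 := RO.mem_lower h3 (hA2 n _ _ (hmem n k')).2
        exact hmono n _ _ (show (e n k').2 ≤ k by
          have : (e n k').2 ≤ s1[n] := hk'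
          omega) r3 h5
      obtain ⟨r4, h5, -, h6⟩ := h30_glue_mem (hg.mem n k) hr3lt (hp1 ▸ hr3) h4
      exact ⟨r4, h5.trans hr2, h6⟩
    · exfalso
      obtain ⟨r4, hr4, w, hw⟩ := hex n r3
      obtain ⟨r5, hr5lt, hr5, a', ha', h5⟩ := hA3 n w r4 hw
      obtain ⟨k', hk'⟩ := hsurj n w a' ha'
      refine h3 r5 hr5lt ?_ k' ?_
      · have := Cond.res_mono hr4 β
        rw [Cond.res_of_lt hr3lt] at this
        exact hr5.trans this
      · show r5 ≤ (e n k').1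
        rw [hk']
        exact h5

end Pool.Agent.Helper33.HM
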